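import Mathlib

set_option autoImplicit false

/-!
# Symplectic capacities and c-symplectic homeomorphisms
-/

namespace Pool.Agent.H72.Symp

open MeasureTheory
open scoped ENNReal ContDiff

/-- The space `R^{2m}`; the point `x` has the coordinates `(x_j, y_j) = x j` for `j < m`. -/
abbrev Sp (m : ℕ) : Type := Fin m → ℝ × ℝ

/-- the standard symplectic form -/
def omega {m : ℕ} (u v : Sp m) : ℝ := ∑ j, ((u j).1 * (v j).2 - (u j).2 * (v j).1)

/-- the open Euclidean unit ball -/
def ball1 (m : ℕ) : Set (Sp m) := {x | ∑ j, ((x j).1 ^ 2 + (x j).2 ^ 2) < 1}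

/-- the open symplectic cylinder of radius one -/
def cyl1 (m : ℕ) [NeZero m] : Set (Sp m) := {x | (x 0).1 ^ 2 + (x 0).2 ^ 2 < 1}

/-- `f` is a symplectic embedding of the open set `U` into the open set `V`: on `U` it is smooth,
injective, has values in `V`, and its derivative preserves the symplectic form. -/
structure IsSympEmbedding {m : ℕ} (f : Sp m → Sp m) (U V : Set (Sp m)) : Prop where
  smooth : ContDiffOn ℝ ∞ f U
  inj : Set.InjOn f U
  maps : Set.MapsTo f U V
  symp : ∀ x ∈ U, ∀ u v : Sp m, omega (fderiv ℝ f x u) (fderiv ℝ f x v) = omega u v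

/-- A normalised symplectic capacity on `R^{2m}`. Only the values `val U` for open `U` matter. -/
structure Capacity (m : ℕ) [NeZero m] where
  /-- the value of the capacity -/
  val : Set (Sp m) → ℝ≥0∞
  mono : ∀ (U V : Set (Sp m)), IsOpen U → IsOpen V → (∃ f, IsSympEmbedding f U V) → val U ≤ val V
  conf : ∀ (t : ℝ) (U : Set (Sp m)), 0 < t → IsOpen U →
    val ((fun x => t • x) '' U) = ENNReal.ofReal (t ^ 2) * val U
  val_ball : val (ball1 m) = ENNReal.ofReal Real.pi
  val_cyl : val (cyl1 m) = ENNReal.ofReal Real.pi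

/-- A capacity choice: a normalised capacity on `R^{2m}` for every `m ≥ 1`. -/
abbrev CapacityChoice : Type := (m : ℕ) → [NeZero m] → Capacity m

/-- every point has a neighbourhood `U` such that `φ` preserves the capacity of all open subsets of
`U` -/
def LocallyPreserves {m : ℕ} [NeZero m] (c : Capacity m) (φ : Sp m ≃ₜ Sp m) : Prop :=
  ∀ x, ∃ U, IsOpen U ∧ x ∈ U ∧ ∀ V, IsOpen V → V ⊆ U → c.val (φ '' V) = c.val V

/-- the homeomorphism `φ × id` of `R^{2n} × R^2 = R^{2n+2}` -/
def stab {n : ℕ} (φ : Sp n ≃ₜ Sp n) : Sp (n + 1) ≃ₜ Sp (n + 1) where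
  toFun x := Fin.snoc (φ (Fin.init x)) (x (Fin.last n))
  invFun x := Fin.snoc (φ.symm (Fin.init x)) (x (Fin.last n))
  left_inv x := by simp
  right_inv x := by simp
  continuous_toFun := by
    refine Continuous.finSnoc (φ.continuous.comp ?_) (continuous_apply _)
    exact continuous_pi fun i => continuous_apply _
  continuous_invFun := by
    refine Continuous.finSnoc (φ.symm.continuous.comp ?_) (continuous_apply _)
    exact continuous_pi fun i => continuous_apply _

/-- A class of homeomorphisms of a real vector space that is closed under composition and inversion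
and contains the translations and the homotheties `x ↦ t x` with `t > 0`. The orientation-preserving
homeomorphisms of `R^{2m}` form such a class. -/
structure IsHomeoClass {E : Type} [NormedAddCommGroup E] [NormedSpace ℝ E] (O : Set (E ≃ₜ E)) :
    Prop where
  trans : ∀ φ ∈ O, ∀ ψ ∈ O, φ.trans ψ ∈ O
  symm : ∀ φ ∈ O, φ.symm ∈ O
  translation : ∀ a : E, Homeomorph.addRight a ∈ O
  homothety : ∀ (t : ℝ) (ht : t ≠ 0), 0 < t → Homeomorph.smulOfNeZero t ht ∈ O

/-- `φ` is a `c`-symplectic homeomorphism of `R^{2n}`, where `O m` is the class of homeomorphisms of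
`R^{2m}` that is allowed (for instance the orientation-preserving ones): if `n` is odd, then `φ`
belongs to `O n` and locally preserves the capacity `c n`; if `n` is even, then `φ × id` belongs to
`O (n + 1)` and locally preserves the capacity `c (n + 1)`. -/
def IsCSymplectic (O : (m : ℕ) → Set (Sp m ≃ₜ Sp m)) (c : CapacityChoice) {n : ℕ} [NeZero n]
    (φ : Sp n ≃ₜ Sp n) : Prop :=
  (Odd n → φ ∈ O n ∧ LocallyPreserves (c n) φ) ∧
    (Even n → stab φ ∈ O (n + 1) ∧ LocallyPreserves (c (n + 1)) (stab φ))

end Pool.Agent.H72.Symp
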