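import Mathlib

set_option autoImplicit false

/-!
# A zero-one law for volume distortion in groups of homeomorphisms

Let `G` be a family of homeomorphisms of a finite-dimensional real vector space that is closed under
composition and inversion and contains the translations. If the members of `G` do not contract small
balls by more than a fixed factor, then they all preserve volume.
-/

namespace Pool.Agent.H72.Symp

open MeasureTheory Metric Filter Topology
open scoped ENNReal

variable {E : Type*} [NormedAddCommGroup E] [NormedSpace ℝ E] [FiniteDimensional ℝ E]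
  [MeasurableSpace E] [BorelSpace E] (μ : Measure E) [μ.IsAddHaarMeasure]

include μ in
theorem exists_inter_pos {S A : Set E} (hS : MeasurableSet S) (hA : MeasurableSet A)
    (hS0 : μ S ≠ 0) (hA0 : μ A ≠ 0) : ∃ t : E, μ (S ∩ (fun z => z - t) ⁻¹' A) ≠ 0 := by
  by_contra hcon
  push Not at hcon
  have hm : ∀ t : E, MeasurableSet ((fun z => z - t) ⁻¹' A) := fun t =>
    (measurable_id.sub_const t) hA
  have hjoint : Measurable (fun p : E × E => A.indicator (fun _ => (1 : ℝ≥0∞)) (p.2 - p.1)) :=
    (measurable_const.indicator hA).comp (measurable_snd.sub measurable_fst)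
  have h1 : ∫⁻ t, ∫⁻ z in S, A.indicator (fun _ => (1 : ℝ≥0∞)) (z - t) ∂μ ∂μ = 0 := by
    have h0 : ∀ t : E, ∫⁻ z in S, A.indicator (fun _ => (1 : ℝ≥0∞)) (z - t) ∂μ = 0 := by
      intro t
      have e : ∀ z, A.indicator (fun _ => (1 : ℝ≥0∞)) (z - t) =
          ((fun z => z - t) ⁻¹' A).indicator (fun _ => (1 : ℝ≥0∞)) z := by
        intro z
        by_cases hz : z - t ∈ A
        · rw [Set.indicator_of_mem hz, Set.indicator_of_mem (show z ∈ (fun z => z - t) ⁻¹' A from hz)]
        · rw [Set.indicator_of_notMem hz,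
            Set.indicator_of_notMem (show z ∉ (fun z => z - t) ⁻¹' A from hz)]
      rw [lintegral_congr e, lintegral_indicator (hm t), setLIntegral_const, one_mul,
        Measure.restrict_apply (hm t), Set.inter_comm]
      exact hcon t
    rw [lintegral_congr h0]
    simp
  rw [lintegral_lintegral_swap] at h1
  · have h2 : ∀ z : E, ∫⁻ t, A.indicator (fun _ => (1 : ℝ≥0∞)) (z - t) ∂μ = μ A := by
      intro z
      rw [lintegral_sub_left_eq_self (fun y => A.indicator (fun _ => (1 : ℝ≥0∞)) y) z,
        lintegral_indicator hA]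
      simp
    rw [lintegral_congr h2, setLIntegral_const, mul_eq_zero] at h1
    rcases h1 with h | h
    · exact hA0 h
    · exact hS0 h
  · exact hjoint.aemeasurable

theorem smul_le_of_closedBall (ν : Measure E) [IsLocallyFiniteMeasure ν] (θ : ℝ≥0∞)
    (h : ∀ x, ∀ᶠ r in 𝓝[>] (0 : ℝ), θ * μ (closedBall x r) ≤ ν (closedBall x r)) :
    θ • μ ≤ ν := by
  have h1 : ∀ᵐ x ∂μ, θ ≤ ν.rnDeriv μ x := by
    filter_upwards [Besicovitch.ae_tendsto_rnDeriv ν μ] with x hx
    refine ge_of_tendsto hx ?_
    filter_upwards [h x, self_mem_nhdsWithin] with r hr hr0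
    have hpos : μ (closedBall x r) ≠ 0 := (measure_closedBall_pos μ x hr0).ne'
    have hfin : μ (closedBall x r) ≠ ∞ := (isCompact_closedBall x r).measure_lt_top.ne
    rw [ENNReal.le_div_iff_mul_le (Or.inl hpos) (Or.inl hfin)]
    exact hr
  calc θ • μ = μ.withDensity (fun _ => θ) := by rw [withDensity_const]
    _ ≤ μ.withDensity (ν.rnDeriv μ) := withDensity_mono h1
    _ ≤ ν := Measure.withDensity_rnDeriv_le ν μ

/-- the measure `A ↦ μ (g '' A)` -/
noncomputable def im (g : E ≃ₜ E) : Measure E := μ.map g.symm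

theorem im_apply (g : E ≃ₜ E) (A : Set E) : im μ g A = μ (g '' A) := by
  unfold im
  have : (g.symm : E → E) = (g.symm.toMeasurableEquiv : E → E) := rfl
  rw [this, MeasurableEquiv.map_apply]
  congr 1
  ext x
  simp only [Homeomorph.toMeasurableEquiv_coe, Set.mem_preimage, Set.mem_image]
  constructor
  · intro h; exact ⟨_, h, g.apply_symm_apply x⟩
  · rintro ⟨y, hy, rfl⟩; simpa using hy

instance (g : E ≃ₜ E) : IsLocallyFiniteMeasure (im μ g) := by
  refine ⟨fun x => ⟨closedBall x 1, closedBall_mem_nhds x one_pos, ?_⟩⟩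
  rw [im_apply]
  exact ((isCompact_closedBall x 1).image g.continuous).measure_lt_top

/-- the zero-one law -/
theorem zero_one (G : Set (E ≃ₜ E)) (hcomp : ∀ g ∈ G, ∀ h ∈ G, g.trans h ∈ G)
    (hinv : ∀ g ∈ G, g.symm ∈ G) (htr : ∀ t : E, Homeomorph.addRight t ∈ G)
    (θ₀ : ℝ≥0∞) (hθ₀ : θ₀ ≠ 0)
    (H : ∀ g ∈ G, ∀ x, ∀ᶠ r in 𝓝[>] (0 : ℝ), θ₀ * μ (closedBall x r) ≤ μ (g '' closedBall x r)) :
    ∀ g ∈ G, ∀ A, MeasurableSet A → μ (g '' A) = μ A := by
  have H0 : ∀ g ∈ G, θ₀ • μ ≤ im μ g := by
    intro g hg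
    refine smul_le_of_closedBall μ _ _ fun x => ?_
    filter_upwards [H g hg x] with r hr
    rwa [im_apply]
  set Θ : Set ℝ≥0∞ := {θ | ∀ g ∈ G, θ • μ ≤ im μ g} with hΘ
  set s := sSup Θ with hs
  have hsΘ : s ∈ Θ := by
    intro g hg
    rw [Measure.le_iff]
    intro A hA
    rw [Measure.smul_apply, smul_eq_mul, hs, ENNReal.sSup_mul]
    refine iSup₂_le fun θ hθ => ?_
    have := hθ g hg A
    rwa [Measure.smul_apply, smul_eq_mul] at this
  have hθs : θ₀ ≤ s := le_sSup H0
  have hs0 : s ≠ 0 := fun h => hθ₀ (nonpos_iff_eq_zero.1 (h ▸ hθs))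
  -- `s ≥ 1`
  have hs1 : 1 ≤ s := by
    by_contra hlt
    push Not at hlt
    obtain ⟨κ, hκ1, hκ2⟩ : ∃ κ : ℝ≥0∞, s < κ ∧ κ * κ < s := by
      have hsfin : s ≠ ∞ := (hlt.trans ENNReal.one_lt_top).ne
      set r := s.toReal with hr
      have hr0 : 0 < r := ENNReal.toReal_pos hs0 hsfin
      have hr1 : r < 1 := by
        have := (ENNReal.toReal_lt_toReal hsfin ENNReal.one_ne_top).2 hlt
        simpa using this
      have hsq : Real.sqrt r * Real.sqrt r = r := Real.mul_self_sqrt hr0.le
      have hq0 : 0 < Real.sqrt r := Real.sqrt_pos.2 hr0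
      have hq1 : r < Real.sqrt r := by
        rw [Real.lt_sqrt hr0.le]
        nlinarith
      refine ⟨ENNReal.ofReal ((r + Real.sqrt r) / 2), ?_, ?_⟩
      · rw [← ENNReal.ofReal_toReal hsfin, ← hr]
        rw [ENNReal.ofReal_lt_ofReal_iff (by linarith)]
        linarith
      · rw [← ENNReal.ofReal_mul (by linarith)]
        conv_rhs => rw [← ENNReal.ofReal_toReal hsfin, ← hr]
        rw [ENNReal.ofReal_lt_ofReal_iff hr0]
        nlinarith
    have hκΘ : κ ∉ Θ := fun h => absurd (le_sSup h) (not_le.2 hκ1)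
    obtain ⟨g, hg, hgκ⟩ : ∃ g ∈ G, ¬ κ • μ ≤ im μ g := by
      by_contra hcon
      push Not at hcon
      exact hκΘ hcon
    have hac : im μ g ≪ μ := by
      intro A hA
      rw [im_apply]
      have h1 := H0 g.symm (hinv g hg) (g '' A)
      rw [Measure.smul_apply, smul_eq_mul, im_apply] at h1
      have h2 : g.symm '' (g '' A) = A := by
        rw [← Set.image_comp]; simp
      rw [h2, hA, nonpos_iff_eq_zero, mul_eq_zero] at h1
      exact h1.resolve_left hθ₀
    set f := (im μ g).rnDeriv μ with hf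
    have hfm : Measurable f := Measure.measurable_rnDeriv _ _
    have hwd : μ.withDensity f = im μ g := Measure.withDensity_rnDeriv_eq _ _ hac
    set A₀ : Set E := {x | f x < κ} with hA₀
    have hA₀m : MeasurableSet A₀ := measurableSet_lt hfm measurable_const
    have hA₀pos : μ A₀ ≠ 0 := by
      intro h0
      apply hgκ
      calc κ • μ = μ.withDensity (fun _ => κ) := by rw [withDensity_const]
        _ ≤ μ.withDensity f := withDensity_mono (by
            have : ∀ᵐ x ∂μ, x ∉ A₀ := measure_eq_zero_iff_ae_notMem.1 h0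
            filter_upwards [this] with x hx
            exact not_lt.1 hx)
        _ = im μ g := hwd
    have hA₀le : ∀ B ⊆ A₀, MeasurableSet B → im μ g B ≤ κ * μ B := by
      intro B hB hBm
      rw [← hwd, withDensity_apply _ hBm]
      calc ∫⁻ x in B, f x ∂μ ≤ ∫⁻ _ in B, κ ∂μ :=
            setLIntegral_mono' hBm fun x hx => (hB hx).le
        _ = κ * μ B := by rw [setLIntegral_const]
    -- a bounded part
    obtain ⟨R, hR⟩ : ∃ R : ℕ, μ (A₀ ∩ closedBall 0 R) ≠ 0 := by
      by_contra hcon
      push Not at hcon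
      apply hA₀pos
      have : A₀ = ⋃ R : ℕ, A₀ ∩ closedBall 0 R := by
        rw [← Set.inter_iUnion, iUnion_closedBall_nat, Set.inter_univ]
      rw [this]
      exact measure_iUnion_null hcon
    set A₁ := A₀ ∩ closedBall (0 : E) R with hA₁
    have hA₁m : MeasurableSet A₁ := hA₀m.inter measurableSet_closedBall
    have hA₁fin : μ A₁ ≠ ∞ :=
      (lt_of_le_of_lt (measure_mono Set.inter_subset_right)
        (isCompact_closedBall (0 : E) R).measure_lt_top).ne
    have hSm : MeasurableSet (g '' A₁) := g.toMeasurableEquiv.measurableEmbedding.measurableSet_image.2 hA₁m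
    have hSpos : μ (g '' A₁) ≠ 0 := by
      intro h0
      have h1 := H0 g hg A₁
      rw [Measure.smul_apply, smul_eq_mul, im_apply, h0, nonpos_iff_eq_zero, mul_eq_zero] at h1
      rcases h1 with h | h
      · exact hθ₀ h
      · exact hR h
    obtain ⟨t, ht⟩ := exists_inter_pos μ hSm hA₁m hSpos hR
    set D := g '' A₁ ∩ (fun z => z - t) ⁻¹' A₁ with hD
    have hDm : MeasurableSet D := hSm.inter ((measurable_id.sub_const t) hA₁m)
    set B := g ⁻¹' D with hB
    have hBm : MeasurableSet B := g.continuous.measurable hDm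
    have hgB : g '' B = D := by
      rw [hB, Set.image_preimage_eq _ g.surjective]
    have hBA : B ⊆ A₁ := by
      intro x hx
      obtain ⟨y, hy, hxy⟩ := hx.1
      rwa [← g.injective hxy]
    set τ : E ≃ₜ E := Homeomorph.addRight (-t) with hτ
    set h : E ≃ₜ E := (g.trans τ).trans g with hh
    have hhG : h ∈ G := hcomp _ (hcomp _ hg _ (htr _)) _ hg
    have hτD : τ '' D ⊆ A₀ := by
      rintro _ ⟨z, hz, rfl⟩
      have h1 : z - t ∈ A₁ := hz.2
      have : τ z = z - t := by simp [hτ, sub_eq_add_neg]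
      rw [this]
      exact h1.1
    have hτDm : MeasurableSet (τ '' D) :=
      τ.toMeasurableEquiv.measurableEmbedding.measurableSet_image.2 hDm
    have hτμ : μ (τ '' D) = μ D := by
      have : τ '' D = (fun z => z + t) ⁻¹' D := by
        ext z
        simp only [Set.mem_image, Set.mem_preimage]
        constructor
        · rintro ⟨y, hy, rfl⟩
          simpa [hτ] using hy
        · intro hz
          exact ⟨z + t, hz, by simp [hτ]⟩
      rw [this, measure_preimage_add_right]
    have hμh : μ (h '' B) ≤ κ * κ * μ B := by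
      have e1 : h '' B = g '' (τ '' (g '' B)) := by
        rw [← Set.image_comp, ← Set.image_comp]; rfl
      rw [e1, hgB, ← im_apply]
      calc im μ g (τ '' D) ≤ κ * μ (τ '' D) := hA₀le _ hτD hτDm
        _ = κ * μ (g '' B) := by rw [hτμ, hgB]
        _ = κ * im μ g B := by rw [im_apply]
        _ ≤ κ * (κ * μ B) := by
            gcongr
            exact hA₀le _ (hBA.trans Set.inter_subset_left) hBm
        _ = κ * κ * μ B := by rw [mul_assoc]
    have hBpos : μ B ≠ 0 := by
      intro h0
      have := hac h0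
      rw [im_apply, hgB] at this
      exact ht this
    have hBfin : μ B ≠ ∞ := (lt_of_le_of_lt (measure_mono hBA) hA₁fin.lt_top).ne
    have h3 := hsΘ h hhG B
    rw [Measure.smul_apply, smul_eq_mul, im_apply] at h3
    have h4 := h3.trans hμh
    rw [ENNReal.mul_le_mul_iff_left hBpos hBfin] at h4
    exact absurd hκ2 (not_lt.2 h4)
  have hle : ∀ g ∈ G, ∀ A, μ A ≤ μ (g '' A) := by
    intro g hg A
    have h1 := hsΘ g hg A
    rw [Measure.smul_apply, smul_eq_mul, im_apply] at h1
    calc μ A = 1 * μ A := (one_mul _).symm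
      _ ≤ s * μ A := by gcongr
      _ ≤ _ := h1
  intro g hg A _
  refine le_antisymm ?_ (hle g hg A)
  have h1 := hle g.symm (hinv g hg) (g '' A)
  have h2 : g.symm '' (g '' A) = A := by
    rw [← Set.image_comp]; simp
  rwa [h2] at h1

end Pool.Agent.H72.Symp
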