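import Mathlib
import Pool.Agent.H72.Symp.Defs
import Pool.Agent.H72.Symp.ZeroOne

set_option autoImplicit false

namespace Pool.Agent.H72.Symp

open MeasureTheory Metric Filter Topology
open scoped ENNReal Pointwise

/-! ### general facts -/

theorem isSympEmbedding_translate {m : ℕ} (a : Sp m) (V : Set (Sp m)) :
    IsSympEmbedding (fun x => x + a) V ((fun x => x + a) '' V) where
  smooth := (contDiff_id.add contDiff_const).contDiffOn
  inj := (add_left_injective a).injOn
  maps := Set.mapsTo_image _ _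
  symp := by
    intro x _ u v
    have : fderiv ℝ (fun x : Sp m => x + a) x = ContinuousLinearMap.id ℝ (Sp m) := by
      rw [fderiv_add_const]
      exact fderiv_id
    rw [this]
    rfl

theorem image_addRight {m : ℕ} (a : Sp m) (V : Set (Sp m)) :
    (Homeomorph.addRight a) '' V = (fun x => x + a) '' V := rfl

theorem Capacity.translate {m : ℕ} [NeZero m] (c : Capacity m) (a : Sp m) {V : Set (Sp m)}
    (hV : IsOpen V) : c.val ((fun x => x + a) '' V) = c.val V := by
  have h1 : IsOpen ((fun x => x + a) '' V) := (Homeomorph.addRight a).isOpenMap V hV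
  apply le_antisymm
  · refine c.mono _ _ h1 hV ⟨fun x => x + -a, ?_⟩
    have h2 := isSympEmbedding_translate (-a) ((fun x => x + a) '' V)
    have h3 : (fun x => x + -a) '' ((fun x => x + a) '' V) = V := by
      rw [← Set.image_comp]
      have : (fun x : Sp m => x + -a) ∘ (fun x => x + a) = id := by
        funext x; simp
      rw [this, Set.image_id]
    rwa [h3] at h2
  · exact c.mono _ _ hV h1 ⟨_, isSympEmbedding_translate a V⟩

section group

variable {m : ℕ} [NeZero m] {c : Capacity m}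

theorem locallyPreserves_trans {φ ψ : Sp m ≃ₜ Sp m} (hφ : LocallyPreserves c φ)
    (hψ : LocallyPreserves c ψ) : LocallyPreserves c (φ.trans ψ) := by
  intro x
  obtain ⟨U, hU, hxU, h1⟩ := hφ x
  obtain ⟨W, hW, hxW, h2⟩ := hψ (φ x)
  refine ⟨U ∩ φ ⁻¹' W, hU.inter (hW.preimage φ.continuous), ⟨hxU, hxW⟩, fun V hV hVU => ?_⟩
  have e : (φ.trans ψ) '' V = ψ '' (φ '' V) := by rw [← Set.image_comp]; rfl
  rw [e, h2 _ (φ.isOpenMap V hV) (by
    rintro _ ⟨y, hy, rfl⟩
    exact (hVU hy).2), h1 V hV (hVU.trans Set.inter_subset_left)]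

theorem locallyPreserves_symm {φ : Sp m ≃ₜ Sp m} (hφ : LocallyPreserves c φ) :
    LocallyPreserves c φ.symm := by
  intro x
  obtain ⟨U, hU, hxU, h1⟩ := hφ (φ.symm x)
  refine ⟨φ '' U, φ.isOpenMap U hU, ⟨_, hxU, φ.apply_symm_apply x⟩, fun V hV hVU => ?_⟩
  have h2 := h1 (φ.symm '' V) (φ.symm.isOpenMap V hV) (by
    rintro _ ⟨y, hy, rfl⟩
    obtain ⟨z, hz, rfl⟩ := hVU hy
    rwa [φ.symm_apply_apply])
  have e : φ '' (φ.symm '' V) = V := by
    rw [← Set.image_comp]; simp
  rw [e] at h2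
  exact h2.symm

theorem locallyPreserves_addRight (a : Sp m) : LocallyPreserves c (Homeomorph.addRight a) := by
  intro x
  refine ⟨Set.univ, isOpen_univ, Set.mem_univ _, fun V hV _ => ?_⟩
  rw [image_addRight]
  exact c.translate a hV

/-- the homothety -/
noncomputable def hom (m : ℕ) {t : ℝ} (ht : 0 < t) : Sp m ≃ₜ Sp m := Homeomorph.smulOfNeZero t ht.ne'

theorem hom_image {t : ℝ} (ht : 0 < t) (V : Set (Sp m)) :
    (hom m ht) '' V = (fun x => t • x) '' V := rfl

theorem Capacity.hom {t : ℝ} (ht : 0 < t) {V : Set (Sp m)} (hV : IsOpen V) :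
    c.val ((Symp.hom m ht) '' V) = ENNReal.ofReal (t ^ 2) * c.val V := c.conf t V ht hV

theorem conj_cap {t : ℝ} (ht : 0 < t) {φ : Sp m ≃ₜ Sp m} {V : Set (Sp m)} (hV : IsOpen V)
    (h : c.val (φ '' ((Symp.hom m ht) '' V)) = c.val ((Symp.hom m ht) '' V)) :
    c.val ((((Symp.hom m ht).trans φ).trans (Symp.hom m (inv_pos.2 ht))) '' V) = c.val V := by
  have e : ((((Symp.hom m ht).trans φ).trans (Symp.hom m (inv_pos.2 ht))) '' V) =
      (Symp.hom m (inv_pos.2 ht)) '' (φ '' ((Symp.hom m ht) '' V)) := by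
    rw [← Set.image_comp, ← Set.image_comp]; rfl
  rw [e, Capacity.hom _ (φ.isOpenMap _ ((Symp.hom m ht).isOpenMap V hV)), h, Capacity.hom ht hV,
    ← mul_assoc, ← ENNReal.ofReal_mul (by positivity)]
  have : t⁻¹ ^ 2 * t ^ 2 = 1 := by
    rw [← mul_pow, inv_mul_cancel₀ ht.ne', one_pow]
  rw [this, ENNReal.ofReal_one, one_mul]

theorem locallyPreserves_conj {t : ℝ} (ht : 0 < t) {φ : Sp m ≃ₜ Sp m}
    (hφ : LocallyPreserves c φ) :
    LocallyPreserves c (((Symp.hom m ht).trans φ).trans (Symp.hom m (inv_pos.2 ht))) := by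
  intro x
  obtain ⟨U, hU, hxU, h1⟩ := hφ (Symp.hom m ht x)
  refine ⟨(Symp.hom m ht) ⁻¹' U, hU.preimage (Symp.hom m ht).continuous, hxU, fun V hV hVU => ?_⟩
  apply conj_cap ht hV
  apply h1 _ ((Symp.hom m ht).isOpenMap V hV)
  rintro _ ⟨y, hy, rfl⟩
  exact hVU hy

end group

/-! ### the two estimates -/

section main

variable {m : ℕ} [NeZero m] (c : Capacity m) (O : Set (Sp m ≃ₜ Sp m))

/-- the group of homeomorphisms of the class `O` that locally preserve the capacity -/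
def grp : Set (Sp m ≃ₜ Sp m) := {φ | φ ∈ O ∧ LocallyPreserves c φ}

/-- the members of the group that preserve the capacity of all open subsets of the unit ball -/
def good : Set (Sp m ≃ₜ Sp m) :=
  {ψ | ψ ∈ grp c O ∧ ∀ V, IsOpen V → V ⊆ ball1 m → c.val (ψ '' V) = c.val V}

theorem ball1_norm {x : Sp m} (hx : x ∈ ball1 m) : ‖x‖ < 1 := by
  rw [pi_norm_lt_iff one_pos]
  intro i
  have h1 : (x i).1 ^ 2 + (x i).2 ^ 2 < 1 := by
    refine lt_of_le_of_lt ?_ hx
    exact Finset.single_le_sum (f := fun j => (x j).1 ^ 2 + (x j).2 ^ 2)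
      (fun j _ => by positivity) (Finset.mem_univ i)
  rw [Prod.norm_def, max_lt_iff, Real.norm_eq_abs, Real.norm_eq_abs]
  constructor
  · rw [← sq_lt_one_iff_abs_lt_one]; nlinarith [sq_nonneg (x i).2]
  · rw [← sq_lt_one_iff_abs_lt_one]; nlinarith [sq_nonneg (x i).1]

theorem mem_ball1 {x : Sp m} (hx : (2 * m + 1) * ‖x‖ ≤ 1) : x ∈ ball1 m := by
  show ∑ j, ((x j).1 ^ 2 + (x j).2 ^ 2) < 1
  have hm : (0 : ℝ) < m := by exact_mod_cast Nat.pos_of_ne_zero (NeZero.ne m)
  have h0 : 0 ≤ ‖x‖ := norm_nonneg x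
  have h1 : ∀ j, (x j).1 ^ 2 + (x j).2 ^ 2 ≤ 2 * ‖x‖ ^ 2 := by
    intro j
    have h2 : ‖x j‖ ≤ ‖x‖ := norm_le_pi_norm x j
    have h3 : |(x j).1| ≤ ‖x‖ := (norm_fst_le (x j)).trans h2
    have h4 : |(x j).2| ≤ ‖x‖ := (norm_snd_le (x j)).trans h2
    have h5 : (x j).1 ^ 2 ≤ ‖x‖ ^ 2 := by rw [← sq_abs]; gcongr
    have h6 : (x j).2 ^ 2 ≤ ‖x‖ ^ 2 := by rw [← sq_abs]; gcongr
    linarith
  have h7 : ∑ j, ((x j).1 ^ 2 + (x j).2 ^ 2) ≤ m * (2 * ‖x‖ ^ 2) := by
    calc ∑ j, ((x j).1 ^ 2 + (x j).2 ^ 2) ≤ ∑ _j : Fin m, 2 * ‖x‖ ^ 2 :=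
          Finset.sum_le_sum fun j _ => h1 j
      _ = m * (2 * ‖x‖ ^ 2) := by simp
  refine lt_of_le_of_lt h7 ?_
  have h8 : ‖x‖ ≤ 1 := by nlinarith
  nlinarith [mul_nonneg h0 h0]

/-- the rescaled map -/
theorem rescale {g : Sp m ≃ₜ Sp m} (hO : IsHomeoClass O) (hg : g ∈ grp c O) (x : Sp m)
    {U : Set (Sp m)}
    (hU : ∀ V, IsOpen V → V ⊆ U → c.val (g '' V) = c.val V) {r : ℝ} (hr : 0 < r)
    (hrU : ∀ y ∈ ball1 m, r • y + x ∈ U) :
    ∃ ψ ∈ good c O, ψ '' ball1 m = (fun z => r⁻¹ • z) '' (g '' ((fun y => r • y + x) '' ball1 m)) := by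
  set φ : Sp m ≃ₜ Sp m := (Homeomorph.addRight x).trans g with hφ
  have hφO : φ ∈ O := hO.trans _ (hO.translation x) _ hg.1
  have hφL : LocallyPreserves c φ := locallyPreserves_trans (locallyPreserves_addRight x) hg.2
  set ψ : Sp m ≃ₜ Sp m := ((Symp.hom m hr).trans φ).trans (Symp.hom m (inv_pos.2 hr)) with hψ
  refine ⟨ψ, ⟨⟨?_, locallyPreserves_conj hr hφL⟩, fun V hV hVB => ?_⟩, ?_⟩
  · exact hO.trans _ (hO.trans _ (hO.homothety r hr.ne' hr) _ hφO) _
      (hO.homothety r⁻¹ (inv_pos.2 hr).ne' (inv_pos.2 hr))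
  · apply conj_cap hr hV
    have e : φ '' ((Symp.hom m hr) '' V) = g '' ((fun y => y + x) '' ((Symp.hom m hr) '' V)) := by
      rw [hφ]
      simp only [← Set.image_comp]
      rfl
    have ho : IsOpen ((fun y => y + x) '' ((Symp.hom m hr) '' V)) :=
      (Homeomorph.addRight x).isOpenMap _ ((Symp.hom m hr).isOpenMap V hV)
    rw [e, hU _ ho, c.translate x ((Symp.hom m hr).isOpenMap V hV)]
    rintro _ ⟨_, ⟨y, hy, rfl⟩, rfl⟩
    exact hrU y (hVB hy)
  · rw [hψ, hφ]
    simp only [← Set.image_comp]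
    rfl

theorem ball_small {g : Sp m ≃ₜ Sp m} (hO : IsHomeoClass O) (hg : g ∈ grp c O) (x : Sp m) :
    ∃ δ : ℝ, 0 < δ ∧ ∀ r, 0 < r → r < δ → ∃ ψ ∈ good c O,
      ψ '' ball1 m = (fun z => r⁻¹ • z) '' (g '' ((fun y => r • y + x) '' ball1 m)) := by
  obtain ⟨U, hU, hxU, h⟩ := hg.2 x
  obtain ⟨δ, hδ, hδU⟩ := Metric.isOpen_iff.1 hU x hxU
  refine ⟨δ, hδ, fun r hr hrδ => rescale c O hO hg x h hr fun y hy => hδU ?_⟩
  rw [Metric.mem_ball, dist_eq_norm, add_sub_cancel_right, norm_smul, Real.norm_eq_abs, abs_of_pos hr]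
  have := ball1_norm hy
  nlinarith

theorem vol_smul_inv {r : ℝ} (hr : 0 < r) (A : Set (Sp m)) :
    ENNReal.ofReal (r ^ Module.finrank ℝ (Sp m)) * volume ((fun z => r⁻¹ • z) '' A) = volume A := by
  have e : (fun z : Sp m => r⁻¹ • z) '' A = r⁻¹ • A := rfl
  rw [e, Measure.addHaar_smul, ← mul_assoc, ← ENNReal.ofReal_mul (by positivity), abs_of_pos (by positivity),
    ← mul_pow, mul_inv_cancel₀ hr.ne', one_pow, ENNReal.ofReal_one, one_mul]

/-- lower estimate -/
theorem lower {ε : ℝ≥0∞} (hO : IsHomeoClass O)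
    (h : ∀ ψ ∈ good c O, ε ≤ volume (ψ '' ball1 m)) {g : Sp m ≃ₜ Sp m} (hg : g ∈ grp c O)
    (x : Sp m) : ∀ᶠ r in 𝓝[>] (0 : ℝ),
      (ε / volume (ball (0 : Sp m) 1)) * volume (closedBall x r) ≤ volume (g '' closedBall x r) := by
  obtain ⟨δ, hδ, H⟩ := ball_small c O hO hg x
  have h1 : ∀ᶠ r in 𝓝[>] (0 : ℝ), r < δ := by
    filter_upwards [Ioo_mem_nhdsGT hδ] with r hr using hr.2
  filter_upwards [h1, self_mem_nhdsWithin] with r hrδ hr
  rw [Set.mem_Ioi] at hr
  obtain ⟨ψ, hψ, e⟩ := H r hr hrδ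
  have h2 := h ψ hψ
  have hB : volume (ball (0 : Sp m) 1) ≠ 0 := (measure_ball_pos volume _ one_pos).ne'
  have hB' : volume (ball (0 : Sp m) 1) ≠ ∞ := measure_ball_lt_top.ne
  rw [Measure.addHaar_closedBall volume x hr.le]
  calc (ε / volume (ball (0 : Sp m) 1)) * (ENNReal.ofReal (r ^ Module.finrank ℝ (Sp m)) *
        volume (ball (0 : Sp m) 1))
      = ENNReal.ofReal (r ^ Module.finrank ℝ (Sp m)) * ε := by
        rw [mul_comm (ENNReal.ofReal _), ← mul_assoc, ENNReal.div_mul_cancel hB hB', mul_comm]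
    _ ≤ ENNReal.ofReal (r ^ Module.finrank ℝ (Sp m)) * volume (ψ '' ball1 m) := by gcongr
    _ = volume (g '' ((fun y => r • y + x) '' ball1 m)) := by rw [e, vol_smul_inv hr]
    _ ≤ volume (g '' closedBall x r) := by
        apply measure_mono
        apply Set.image_mono
        rintro _ ⟨y, hy, rfl⟩
        rw [mem_closedBall, dist_eq_norm, add_sub_cancel_right, norm_smul, Real.norm_eq_abs,
          abs_of_pos hr]
        have := ball1_norm hy
        nlinarith

/-- upper estimate -/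
theorem upper {M : ℝ≥0∞} (hO : IsHomeoClass O)
    (h : ∀ ψ ∈ good c O, volume (ψ '' ball1 m) ≤ M) {g : Sp m ≃ₜ Sp m} (hg : g ∈ grp c O)
    (x : Sp m) : ∀ᶠ r in 𝓝[>] (0 : ℝ),
      volume (g '' closedBall x r) ≤
        (ENNReal.ofReal ((2 * m + 1 : ℝ) ^ Module.finrank ℝ (Sp m)) * M /
          volume (ball (0 : Sp m) 1)) * volume (closedBall x r) := by
  obtain ⟨δ, hδ, H⟩ := ball_small c O hO hg x
  have hK : (0 : ℝ) < 2 * m + 1 := by positivity
  have h1 : ∀ᶠ r in 𝓝[>] (0 : ℝ), r < δ / (2 * m + 1) := by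
    filter_upwards [Ioo_mem_nhdsGT (show 0 < δ / (2 * m + 1) by positivity)] with r hr using hr.2
  filter_upwards [h1, self_mem_nhdsWithin] with r hrδ hr
  rw [Set.mem_Ioi] at hr
  set ρ : ℝ := (2 * m + 1) * r with hρ
  have hρ0 : 0 < ρ := by positivity
  have hρδ : ρ < δ := by
    rw [lt_div_iff₀ hK] at hrδ
    rw [hρ]; linarith
  obtain ⟨ψ, hψ, e⟩ := H ρ hρ0 hρδ
  have h2 := h ψ hψ
  have hB : volume (ball (0 : Sp m) 1) ≠ 0 := (measure_ball_pos volume _ one_pos).ne'
  have hB' : volume (ball (0 : Sp m) 1) ≠ ∞ := measure_ball_lt_top.ne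
  rw [Measure.addHaar_closedBall volume x hr.le]
  calc volume (g '' closedBall x r) ≤ volume (g '' ((fun y => ρ • y + x) '' ball1 m)) := by
        apply measure_mono
        apply Set.image_mono
        intro z hz
        refine ⟨ρ⁻¹ • (z - x), ?_, ?_⟩
        · apply mem_ball1
          rw [norm_smul, Real.norm_eq_abs, abs_of_pos (inv_pos.2 hρ0)]
          rw [mem_closedBall, dist_eq_norm] at hz
          rw [hρ, mul_inv]
          have h3 : (2 * (m : ℝ) + 1) * ((2 * (m : ℝ) + 1)⁻¹ * r⁻¹ * ‖z - x‖) = r⁻¹ * ‖z - x‖ := by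
            field_simp
          rw [h3, inv_mul_le_iff₀ hr, mul_one]
          exact hz
        · simp only
          rw [smul_smul, mul_inv_cancel₀ hρ0.ne', one_smul, sub_add_cancel]
    _ = ENNReal.ofReal (ρ ^ Module.finrank ℝ (Sp m)) * volume (ψ '' ball1 m) := by
        rw [e, vol_smul_inv hρ0]
    _ ≤ ENNReal.ofReal (ρ ^ Module.finrank ℝ (Sp m)) * M := by gcongr
    _ = (ENNReal.ofReal ((2 * m + 1 : ℝ) ^ Module.finrank ℝ (Sp m)) * M /
          volume (ball (0 : Sp m) 1)) * (ENNReal.ofReal (r ^ Module.finrank ℝ (Sp m)) *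
            volume (ball (0 : Sp m) 1)) := by
        rw [mul_comm (ENNReal.ofReal (r ^ _)), ← mul_assoc, ENNReal.div_mul_cancel hB hB', hρ,
          mul_pow, ENNReal.ofReal_mul (by positivity)]
        ring

/-- all members of the group preserve volume if the good maps do not contract the ball too much -/
theorem preserve_of_lower {ε : ℝ≥0∞} (hε : ε ≠ 0) (hO : IsHomeoClass O)
    (h : ∀ ψ ∈ good c O, ε ≤ volume (ψ '' ball1 m)) :
    ∀ g ∈ grp c O, ∀ A, MeasurableSet A → volume (g '' A) = volume A := by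
  refine zero_one volume (grp c O) ?_ ?_ ?_ (ε / volume (ball (0 : Sp m) 1)) ?_ ?_
  · intro g hg h hh
    exact ⟨hO.trans _ hg.1 _ hh.1, locallyPreserves_trans hg.2 hh.2⟩
  · intro g hg
    exact ⟨hO.symm _ hg.1, locallyPreserves_symm hg.2⟩
  · intro t
    exact ⟨hO.translation t, locallyPreserves_addRight t⟩
  · exact (ENNReal.div_pos hε measure_ball_lt_top.ne).ne'
  · intro g hg x
    exact lower c O hO h hg x

/-- all members of the group preserve volume if the good maps do not expand the ball too much -/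
theorem preserve_of_upper {M : ℝ≥0∞} (hM : M ≠ ∞) (hO : IsHomeoClass O)
    (h : ∀ ψ ∈ good c O, volume (ψ '' ball1 m) ≤ M) :
    ∀ g ∈ grp c O, ∀ A, MeasurableSet A → volume (g '' A) = volume A := by
  set C : ℝ≥0∞ := (ENNReal.ofReal ((2 * m + 1 : ℝ) ^ Module.finrank ℝ (Sp m)) * M /
          volume (ball (0 : Sp m) 1)) + 1 with hC
  have hB : volume (ball (0 : Sp m) 1) ≠ 0 := (measure_ball_pos volume _ one_pos).ne'
  have hCtop : C ≠ ∞ := by
    rw [hC]
    refine ENNReal.add_ne_top.2 ⟨?_, ENNReal.one_ne_top⟩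
    exact ENNReal.div_ne_top (ENNReal.mul_ne_top ENNReal.ofReal_ne_top hM) hB
  have hC0 : C ≠ 0 := by
    rw [hC]; simp
  -- upper bound for all sets
  have key : ∀ g ∈ grp c O, ∀ A, volume (g '' A) ≤ C * volume A := by
    intro g hg A
    have hlf : IsLocallyFiniteMeasure (im (volume : Measure (Sp m)) g) := by
      refine ⟨fun x => ⟨closedBall x 1, closedBall_mem_nhds x one_pos, ?_⟩⟩
      rw [im_apply]
      exact ((isCompact_closedBall x 1).image g.continuous).measure_lt_top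
    have hsf : SigmaFinite (im (volume : Measure (Sp m)) g) := inferInstance
    have h1 : ∀ x ∈ A, ∃ᶠ a in (Besicovitch.vitaliFamily (im volume g)).filterAt x,
        (im volume g) a ≤ (C • volume) a := by
      intro x _
      refine (Besicovitch.tendsto_filterAt (im volume g) x).frequently (Eventually.frequently ?_)
      filter_upwards [upper c O hO h hg x] with r hr
      rw [im_apply, Measure.smul_apply, smul_eq_mul]
      refine hr.trans ?_
      gcongr
      exact le_self_add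
    have : IsLocallyFiniteMeasure (C • (volume : Measure (Sp m))) := by
      refine ⟨fun x => ⟨closedBall x 1, closedBall_mem_nhds x one_pos, ?_⟩⟩
      rw [Measure.smul_apply, smul_eq_mul]
      exact ENNReal.mul_lt_top hCtop.lt_top (isCompact_closedBall x 1).measure_lt_top
    have h2 := (Besicovitch.vitaliFamily (im volume g)).measure_le_of_frequently_le
      (C • volume) (Measure.AbsolutelyContinuous.refl _) A h1
    rwa [im_apply, Measure.smul_apply, smul_eq_mul] at h2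
  refine zero_one volume (grp c O) ?_ ?_ ?_ C⁻¹ ?_ ?_
  · intro g hg h hh
    exact ⟨hO.trans _ hg.1 _ hh.1, locallyPreserves_trans hg.2 hh.2⟩
  · intro g hg
    exact ⟨hO.symm _ hg.1, locallyPreserves_symm hg.2⟩
  · intro t
    exact ⟨hO.translation t, locallyPreserves_addRight t⟩
  · exact ENNReal.inv_ne_zero.2 hCtop
  · intro g hg x
    refine Eventually.of_forall fun r => ?_
    have h1 := key g.symm ⟨hO.symm _ hg.1, locallyPreserves_symm hg.2⟩ (g '' closedBall x r)
    have h2 : g.symm '' (g '' closedBall x r) = closedBall x r := by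
      rw [← Set.image_comp]; simp
    rw [h2] at h1
    rw [ENNReal.inv_mul_le_iff hC0 hCtop]
    exact h1

end main

/-! ### stabilisation -/

theorem preserve_of_stab {n : ℕ} (φ : Sp n ≃ₜ Sp n)
    (h : ∀ A, MeasurableSet A → volume (stab φ '' A) = volume A) :
    ∀ A, MeasurableSet A → volume (φ '' A) = volume A := by
  intro A hA
  set I : Set (ℝ × ℝ) := closedBall 0 1 with hI
  have hI0 : volume I ≠ 0 := (measure_closedBall_pos volume _ one_pos).ne'
  have hI1 : volume I ≠ ∞ := (isCompact_closedBall (0 : ℝ × ℝ) 1).measure_lt_top.ne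
  have key : ∀ B : Set (Sp n), volume ({x : Sp (n + 1) | x (Fin.last n) ∈ I ∧ Fin.init x ∈ B}) =
      volume I * volume B := by
    intro B
    have hmp := volume_preserving_piFinSuccAbove (fun _ : Fin (n + 1) => ℝ × ℝ) (Fin.last n)
    have h1 := hmp.measure_preimage_equiv (I ×ˢ B)
    rw [Measure.volume_eq_prod, Measure.prod_prod] at h1
    rw [← h1]
    congr 1
    ext x
    simp only [Set.mem_setOf_eq, Set.mem_preimage, Set.mem_prod, MeasurableEquiv.piFinSuccAbove_apply,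
      Fin.insertNthEquiv_symm_apply]
    constructor
    · rintro ⟨h1, h2⟩
      refine ⟨h1, ?_⟩
      convert h2 using 1
      funext i
      simp [Fin.removeNth, Fin.init]
    · rintro ⟨h1, h2⟩
      refine ⟨h1, ?_⟩
      convert h2 using 1
      funext i
      simp [Fin.removeNth, Fin.init]
  have himg : stab φ '' {x : Sp (n + 1) | x (Fin.last n) ∈ I ∧ Fin.init x ∈ A} =
      {x : Sp (n + 1) | x (Fin.last n) ∈ I ∧ Fin.init x ∈ φ '' A} := by
    ext y
    constructor
    · rintro ⟨x, ⟨h1, h2⟩, rfl⟩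
      refine ⟨?_, ?_⟩
      · show (Fin.snoc (φ (Fin.init x)) (x (Fin.last n)) : Sp (n + 1)) (Fin.last n) ∈ I
        rw [Fin.snoc_last]
        exact h1
      · show Fin.init (Fin.snoc (φ (Fin.init x)) (x (Fin.last n)) : Sp (n + 1)) ∈ φ '' A
        rw [Fin.init_snoc]
        exact ⟨_, h2, rfl⟩
    · rintro ⟨h1, z, hz, hzy⟩
      refine ⟨Fin.snoc z (y (Fin.last n)), ⟨?_, ?_⟩, ?_⟩
      · rw [Fin.snoc_last]
        exact h1
      · rw [Fin.init_snoc]
        exact hz
      · show (Fin.snoc (φ (Fin.init (Fin.snoc z (y (Fin.last n)) : Sp (n + 1))))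
          ((Fin.snoc z (y (Fin.last n)) : Sp (n + 1)) (Fin.last n)) : Sp (n + 1)) = y
        rw [Fin.init_snoc, Fin.snoc_last, hzy, Fin.snoc_init_self]
  have hmeas : MeasurableSet {x : Sp (n + 1) | x (Fin.last n) ∈ I ∧ Fin.init x ∈ A} := by
    have m1 : Measurable (fun x : Sp (n + 1) => x (Fin.last n)) := measurable_pi_apply _
    have m2 : Measurable (fun x : Sp (n + 1) => (Fin.init x : Sp n)) :=
      measurable_pi_lambda _ fun i => measurable_pi_apply _
    exact (m1 measurableSet_closedBall).inter (m2 hA)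
  have h1 := h _ hmeas
  rw [himg, key, key] at h1
  rwa [ENNReal.mul_right_inj hI0 hI1] at h1

end Pool.Agent.H72.Symp
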